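import Pool.Agent.W908.N.N12
import Pool.Agent.W908.C2

/-! The theorem with consecutive levels. -/

set_option autoImplicit false

namespace Pool.Agent.W908.UPH

open Pool.Agent.NPC Pool.Agent.H620R2.Gauge
open Pool.Agent.H591R3.PHG (IsSig IsSigPoly)

/-- An oracle with `NP = UP` and a polynomial hierarchy that is strict at every level, even if
polynomial advice is allowed at the lower level. -/
theorem main2 : ∃ O : Oracle, (∀ L : Set (List Bool), IsNP O L ↔ IsUP O L) ∧
    ∀ k : ℕ, ∃ L : Set (List Bool), IsSig O (k + 1) L ∧ ¬ IsSigPoly O k L := by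
  obtain ⟨O, h1, h2⟩ := main
  refine ⟨O, h1, fun k => ?_⟩
  by_contra hcon
  obtain ⟨L, hL, hn⟩ := h2 k
  refine hn (Col.collapse (fun L' hL' => ?_) 4 L hL)
  by_contra h3
  exact hcon ⟨L', hL', h3⟩

end Pool.Agent.W908.UPH
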